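import Mathlib
import Pool.Agent.Q112.FactIndex

/-!
# Finite-dimensional Hopf algebras with infinite factorization index

`k` is any infinite field of characteristic two. `E` is the 32-dimensional Hopf algebra generated by
primitive elements `h₁, h₂` (central, `hᵢ² = hᵢ`) and `x, z, y` (of square zero) with `[x, z] = 0`,
`[x, y] = h₁`, `[z, y] = h₂`; `A` is generated by `z` and the complements `H_λ` are generated by
`h₁, h₂, x + λ z, y`.
-/

namespace Pool.Agent.Results.MP_d8e1db_al.InfiniteFactorizationIndex

open Pool.Agent.Q112.FI

/-- Over every infinite field of characteristic two there are finite-dimensional Hopf algebras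
`A ⊆ E` with infinitely many pairwise non-isomorphic `A`-complements of `E`. -/
theorem result (k : Type) [Field k] [CharP k 2] [Infinite k] :
    ∃ (A E : Type) (_ : Ring A) (_ : HopfAlgebra k A) (_ : Ring E)
      (_ : HopfAlgebra k E) (j : A →ₐc[k] E) (H : ℕ → Type) (_ : ∀ n, Ring (H n))
      (_ : ∀ n, HopfAlgebra k (H n)) (i : ∀ n, H n →ₐc[k] E),
      FiniteDimensional k E ∧ Function.Injective j ∧ (∀ n, IsComplement j (i n)) ∧
        ∀ m n, m ≠ n → IsEmpty (H m ≃ₐc[k] H n) :=
  main k

end Pool.Agent.Results.MP_d8e1db_al.InfiniteFactorizationIndex
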